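import Mathlib

/-!
# Extension closure of stably annihilated modules: definitions and the depth part
-/

set_option autoImplicit false

namespace Pool.Agent.V113.ExtC

open CategoryTheory

universe u

/-- The depth of a module `N` over a local ring `A` with residue field `k`: the least `i` with
`Ext^i(k, N) ≠ 0`, and `⊤` if there is no such `i` (in particular for `N = 0`). -/
noncomputable def depth (A : Type u) [CommRing A] [IsLocalRing A] (N : Type u) [AddCommGroup N]
    [Module A N] : ℕ∞ :=
  sInf {n : ℕ∞ | ∃ i : ℕ, n = (i : ℕ∞) ∧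
    Nontrivial (Abelian.Ext (ModuleCat.of A (IsLocalRing.ResidueField A)) (ModuleCat.of A N) i)}

/-- `C(R)`: finitely generated modules with `depth M_p ≥ depth R_p` for all primes `p`. -/
def IsC (R : Type u) [CommRing R] (M : ModuleCat.{u} R) : Prop :=
  Module.Finite R M ∧ ∀ (p : Ideal R) [p.IsPrime],
    depth (Localization.AtPrime p) (Localization.AtPrime p) ≤
      depth (Localization.AtPrime p) (LocalizedModule p.primeCompl M)

/-- The stable annihilator: the `a` such that multiplication by `a` on `M` factors through a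
finitely generated projective module. -/
def stableAnn (R : Type u) [CommRing R] (M : ModuleCat.{u} R) : Set R :=
  {a | ∃ P : ModuleCat.{u} R, Module.Finite R P ∧ Module.Projective R P ∧
    ∃ (f : M →ₗ[R] P) (g : P →ₗ[R] M), ∀ m, g (f m) = a • m}

/-- `C_I(R)`. -/
def IsCI (R : Type u) [CommRing R] (I : Ideal R) (M : ModuleCat.{u} R) : Prop :=
  IsC R M ∧ (I : Set R) ⊆ stableAnn R M

/-- `C_{V(I)}(R)`. -/
def IsCVI (R : Type u) [CommRing R] (I : Ideal R) (M : ModuleCat.{u} R) : Prop :=
  IsC R M ∧ ∀ (p : Ideal R) [p.IsPrime], ¬ I ≤ p →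
    Module.Free (Localization.AtPrime p) (LocalizedModule p.primeCompl M)

/-- A class of modules is stable under finite direct sums, direct summands and extensions. -/
structure IsExtClosed (R : Type u) [CommRing R] (Y : ModuleCat.{u} R → Prop) : Prop where
  zero : ∀ M : ModuleCat.{u} R, Subsingleton M → Y M
  sum : ∀ M N : ModuleCat.{u} R, Y M → Y N → Y (ModuleCat.of R (M × N))
  summand : ∀ (M N : ModuleCat.{u} R) (i : M →ₗ[R] N) (r : N →ₗ[R] M),
    (∀ m, r (i m) = m) → Y N → Y M
  extension : ∀ (X Z W : ModuleCat.{u} R) (f : X →ₗ[R] Z) (g : Z →ₗ[R] W),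
    Function.Injective f → Function.Exact f g → Function.Surjective g → Y X → Y W → Y Z

/-- `ext_R X`: the least class of modules which contains `X` and is stable under finite direct
sums, direct summands and extensions. -/
def ExtClosure (R : Type u) [CommRing R] (X : ModuleCat.{u} R → Prop) (M : ModuleCat.{u} R) :
    Prop :=
  ∀ Y : ModuleCat.{u} R → Prop, (∀ N, X N → Y N) → IsExtClosed R Y → Y M

section Depth

variable {A : Type u} [CommRing A] [IsLocalRing A]

/-- Vanishing of `Ext^i(k, N)` for `i < n`. -/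
def Dg (n : ℕ) (N : ModuleCat.{u} A) : Prop :=
  ∀ i < n, Subsingleton (Abelian.Ext (ModuleCat.of A (IsLocalRing.ResidueField A)) N i)

theorem le_depth_iff (n : ℕ) (N : Type u) [AddCommGroup N] [Module A N] :
    (n : ℕ∞) ≤ depth A N ↔ Dg n (ModuleCat.of A N) := by
  constructor
  · intro h i hi
    by_contra hc
    rw [not_subsingleton_iff_nontrivial] at hc
    have h1 : depth A N ≤ (i : ℕ∞) := sInf_le ⟨i, rfl, hc⟩
    have h2 : (n : ℕ∞) ≤ i := h.trans h1
    have h3 : n ≤ i := by exact_mod_cast h2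
    omega
  · intro h
    refine le_sInf ?_
    rintro _ ⟨i, rfl, hi⟩
    by_contra hc
    rw [not_le] at hc
    have h3 : i < n := by exact_mod_cast hc
    exact (not_subsingleton_iff_nontrivial.2 hi) (h i h3)

theorem depth_le_iff (N N' : Type u) [AddCommGroup N] [Module A N] [AddCommGroup N']
    [Module A N'] : depth A N ≤ depth A N' ↔
      ∀ n : ℕ, Dg n (ModuleCat.of A N) → Dg n (ModuleCat.of A N') := by
  constructor
  · intro h n hn
    rw [← le_depth_iff] at hn ⊢
    exact hn.trans h
  · intro h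
    refine ENat.forall_natCast_le_iff_le.1 ?_
    intro n hn
    rw [le_depth_iff] at hn ⊢
    exact h n hn

theorem Dg.ext {n : ℕ} {S : ShortComplex (ModuleCat.{u} A)} (hS : S.ShortExact)
    (h1 : Dg n S.X₁) (h3 : Dg n S.X₃) : Dg n S.X₂ := by
  intro i hi
  refine ⟨fun x y => ?_⟩
  have key : ∀ x : Abelian.Ext (ModuleCat.of A (IsLocalRing.ResidueField A)) S.X₂ i, x = 0 := by
    intro x
    have h3' := h3 i hi
    obtain ⟨x1, hx1⟩ := Abelian.Ext.covariant_sequence_exact₂
      (ModuleCat.of A (IsLocalRing.ResidueField A)) hS x (Subsingleton.elim _ _)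
    have h1' := h1 i hi
    rw [← hx1, Subsingleton.elim x1 0]
    simp
  rw [key x, key y]

theorem Dg.ker {n : ℕ} {S : ShortComplex (ModuleCat.{u} A)} (hS : S.ShortExact)
    (h2 : Dg n S.X₂) (h3 : Dg n S.X₃) : Dg n S.X₁ := by
  intro i hi
  refine ⟨fun x y => ?_⟩
  have key : ∀ x : Abelian.Ext (ModuleCat.of A (IsLocalRing.ResidueField A)) S.X₁ i, x = 0 := by
    intro x
    have h2' := h2 i hi
    rcases i with _ | i
    · have := hS.mono_f
      exact Abelian.Ext.postcomp_mk₀_injective_of_mono _ S.f (Subsingleton.elim _ _)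
    · obtain ⟨x3, hx3⟩ := Abelian.Ext.covariant_sequence_exact₁
        (ModuleCat.of A (IsLocalRing.ResidueField A)) hS x (Subsingleton.elim _ _)
        (n₀ := i) rfl
      have h3' := h3 i (by omega)
      rw [← hx3, Subsingleton.elim x3 0]
      simp
  rw [key x, key y]

theorem Dg.summand {n : ℕ} {M N : ModuleCat.{u} A} (i : M ⟶ N) (r : N ⟶ M) (h : i ≫ r = 𝟙 M)
    (hN : Dg n N) : Dg n M := by
  intro j hj
  refine ⟨fun x y => ?_⟩
  have key : ∀ x : Abelian.Ext (ModuleCat.of A (IsLocalRing.ResidueField A)) M j, x = 0 := by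
    intro x
    have h' := hN j hj
    have h1 : x = (x.comp (Abelian.Ext.mk₀ i) (add_zero j)).comp (Abelian.Ext.mk₀ r)
        (add_zero j) := by
      rw [Abelian.Ext.comp_assoc_of_third_deg_zero, Abelian.Ext.mk₀_comp_mk₀, h,
        Abelian.Ext.comp_mk₀_id]
    rw [h1, Subsingleton.elim (x.comp (Abelian.Ext.mk₀ i) (add_zero j)) 0]
    simp
  rw [key x, key y]

/-- The linear algebra form of a short exact sequence. -/
theorem shortExact_of {X Z W : Type u} [AddCommGroup X] [AddCommGroup Z] [AddCommGroup W]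
    [Module A X] [Module A Z] [Module A W] (f : X →ₗ[A] Z) (g : Z →ₗ[A] W)
    (hf : Function.Injective f) (he : Function.Exact f g) (hg : Function.Surjective g) :
    ∃ (h : ModuleCat.ofHom f ≫ ModuleCat.ofHom g = 0),
      (ShortComplex.mk (ModuleCat.ofHom f) (ModuleCat.ofHom g) h).ShortExact := by
  have h : ModuleCat.ofHom f ≫ ModuleCat.ofHom g = 0 := by
    ext x
    exact (he (f x)).2 ⟨x, rfl⟩
  refine ⟨h, ?_⟩
  refine { exact := ?_, mono_f := ?_, epi_g := ?_ }
  · rw [ShortComplex.moduleCat_exact_iff]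
    intro x hx
    exact (he x).1 hx
  · exact (ModuleCat.mono_iff_injective _).2 hf
  · exact (ModuleCat.epi_iff_surjective _).2 hg

theorem Dg.ext' {n : ℕ} {X Z W : Type u} [AddCommGroup X] [AddCommGroup Z] [AddCommGroup W]
    [Module A X] [Module A Z] [Module A W] (f : X →ₗ[A] Z) (g : Z →ₗ[A] W)
    (hf : Function.Injective f) (he : Function.Exact f g) (hg : Function.Surjective g)
    (h1 : Dg n (ModuleCat.of A X)) (h3 : Dg n (ModuleCat.of A W)) : Dg n (ModuleCat.of A Z) := by
  obtain ⟨h, hS⟩ := shortExact_of f g hf he hg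
  exact Dg.ext hS h1 h3

theorem Dg.ker' {n : ℕ} {X Z W : Type u} [AddCommGroup X] [AddCommGroup Z] [AddCommGroup W]
    [Module A X] [Module A Z] [Module A W] (f : X →ₗ[A] Z) (g : Z →ₗ[A] W)
    (hf : Function.Injective f) (he : Function.Exact f g) (hg : Function.Surjective g)
    (h2 : Dg n (ModuleCat.of A Z)) (h3 : Dg n (ModuleCat.of A W)) : Dg n (ModuleCat.of A X) := by
  obtain ⟨h, hS⟩ := shortExact_of f g hf he hg
  exact Dg.ker hS h2 h3

theorem Dg.summand' {n : ℕ} {M N : Type u} [AddCommGroup M] [AddCommGroup N] [Module A M]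
    [Module A N] (i : M →ₗ[A] N) (r : N →ₗ[A] M) (h : ∀ m, r (i m) = m)
    (hN : Dg n (ModuleCat.of A N)) : Dg n (ModuleCat.of A M) := by
  refine Dg.summand (ModuleCat.ofHom i) (ModuleCat.ofHom r) ?_ hN
  ext m
  exact h m

end Depth

end Pool.Agent.V113.ExtC
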