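import Pool.Agent.V113.ExtC.Main

/-!
# Extension closure of stably annihilated modules: the theorem
-/

set_option autoImplicit false

namespace Pool.Agent.V113.ExtC

open CategoryTheory

universe u

variable {R : Type u} [CommRing R]

/-- The stable annihilator as an ideal, with respect to a fixed surjection. -/
def sIdeal {P M : Type u} [AddCommGroup P] [AddCommGroup M] [Module R P] [Module R M]
    (π : P →ₗ[R] M) : Ideal R where
  carrier := {a | ∃ s : M →ₗ[R] P, ∀ m, π (s m) = a • m}
  add_mem' := by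
    rintro a b ⟨s, hs⟩ ⟨t, ht⟩
    exact ⟨s + t, fun m => by rw [LinearMap.add_apply, map_add, hs, ht, add_smul]⟩
  zero_mem' := ⟨0, fun m => by simp⟩
  smul_mem' := by
    rintro c a ⟨s, hs⟩
    exact ⟨c • s, fun m => by rw [LinearMap.smul_apply, map_smul, hs, smul_smul, smul_eq_mul]⟩

theorem mem_sIdeal {M : ModuleCat.{u} R} {P : Type u} [AddCommGroup P] [Module R P]
    [Module.Finite R P] [Module.Projective R P] (π : P →ₗ[R] M) (hπ : Function.Surjective π)
    (a : R) : a ∈ sIdeal π ↔ a ∈ stableAnn R M := by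
  constructor
  · rintro ⟨s, hs⟩
    exact stableAnn_of P s π hs
  · intro h
    exact exists_of_stableAnn h π hπ

theorem exists_pow_mem [IsNoetherianRing R] (I : Ideal R) (M : ModuleCat.{u} R)
    [Module.Finite R M] (hM : LP I M) (P : Type u) [AddCommGroup P] [Module R P]
    (π : P →ₗ[R] M) (hπ : Function.Surjective π) (a : R) (ha : a ∈ I) :
    ∃ n : ℕ, a ^ n ∈ sIdeal π := by
  by_contra hcon
  have h1 : a ∉ (sIdeal π).radical := fun h => hcon (Ideal.mem_radical_iff.1 h)
  rw [Ideal.radical_eq_sInf, Ideal.mem_sInf] at h1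
  obtain ⟨p, ⟨hJ, hp⟩, hap⟩ : ∃ p : Ideal R, (sIdeal π ≤ p ∧ p.IsPrime) ∧ a ∉ p := by
    by_contra hc
    refine h1 fun {p} hp => ?_
    by_contra hap
    exact hc ⟨p, hp, hap⟩
  have hI : ¬ I ≤ p := fun h => hap (h ha)
  have hproj := hM p hI
  obtain ⟨σ, hσ⟩ := Module.projective_lifting_property
    (LocalizedModule.map p.primeCompl π) LinearMap.id (LocalizedModule.map_surjective _ _ hπ)
  have hfp : Module.FinitePresentation R M := Module.finitePresentation_of_finite R M
  obtain ⟨h, s, hs⟩ := Module.FinitePresentation.exists_lift_of_isLocalizedModule p.primeCompl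
    (LocalizedModule.mkLinearMap p.primeCompl P)
    ((σ.restrictScalars R) ∘ₗ (LocalizedModule.mkLinearMap p.primeCompl M))
  have key : ∀ m : M, ∃ c : p.primeCompl, c • (π (h m) - (s : R) • m) = 0 := by
    intro m
    refine IsLocalizedModule.exists_of_eq (S := p.primeCompl)
      (f := LocalizedModule.mkLinearMap p.primeCompl M) (x₂ := 0) ?_ |>.imp fun c hc => by
        rw [hc, smul_zero]
    rw [map_zero, map_sub, sub_eq_zero, map_smul]
    have e1 := congrArg (LocalizedModule.map p.primeCompl π) (LinearMap.congr_fun hs m)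
    have e2 : LocalizedModule.map p.primeCompl π (LocalizedModule.mk (h m) 1) =
        LocalizedModule.mk (π (h m)) 1 := by simp
    have e3 := LinearMap.congr_fun hσ (LocalizedModule.mk m 1)
    change LocalizedModule.mk (π (h m)) 1 = (s : R) • LocalizedModule.mk m 1
    rw [← e2]
    refine e1.trans ?_
    change LocalizedModule.map p.primeCompl π ((s : R) • σ (LocalizedModule.mk m 1)) = _
    rw [LinearMap.map_smul_of_tower]
    congr 1
  obtain ⟨T, hT⟩ := (inferInstance : Module.Finite R M)
  choose c hc using key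
  let d : p.primeCompl := ∏ t ∈ T, c t
  have hd : ∀ m : M, (d : R) • (π (h m) - (s : R) • m) = 0 := by
    intro m
    have hm : m ∈ Submodule.span R (T : Set M) := by rw [hT]; trivial
    induction hm using Submodule.span_induction with
    | mem x hx =>
      have hdvd : c x ∣ d := Finset.dvd_prod_of_mem c hx
      obtain ⟨e, he⟩ := hdvd
      rw [he, mul_comm]
      have := hc x
      rw [Submonoid.smul_def] at this
      rw [Submonoid.coe_mul, mul_smul, this, smul_zero]
    | zero => simp
    | add x y hx hy h1 h2 =>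
      rw [map_add, map_add, smul_add, add_sub_add_comm, smul_add, h1, h2, add_zero]
    | smul r x hx h1 =>
      rw [map_smul, map_smul, smul_comm (s : R) r, ← smul_sub, smul_comm, h1, smul_zero]
  have hmem : (d : R) * (s : R) ∈ sIdeal π := by
    refine ⟨(d : R) • h, fun m => ?_⟩
    have := hd m
    rw [smul_sub, sub_eq_zero] at this
    rw [LinearMap.smul_apply, map_smul, this, mul_smul]
  exact (d * s).2 (hJ hmem)

/-- The class of the modules in `C_{V(I)}(R)` whose stable annihilator contains `S`. -/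
def TS (I : Ideal R) (S : Set R) (M : ModuleCat.{u} R) : Prop :=
  IsC R M ∧ LP I M ∧ S ⊆ stableAnn R M

theorem ExtClosure.mono {X X' : ModuleCat.{u} R → Prop} (h : ∀ N, X N → ExtClosure R X' N)
    {M : ModuleCat.{u} R} (hM : ExtClosure R X M) : ExtClosure R X' M := by
  intro Y hY hc
  exact hM Y (fun N hN => h N hN Y hY hc) hc

theorem ExtClosure.of {X : ModuleCat.{u} R → Prop} {M : ModuleCat.{u} R} (hM : X M) :
    ExtClosure R X M := fun _ hY _ => hY M hM

theorem extClosure_closed (X : ModuleCat.{u} R → Prop) : IsExtClosed R (ExtClosure R X) where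
  zero := fun M h Y _ hc => hc.zero M h
  sum := fun M N hM hN Y hY hc => hc.sum M N (hM Y hY hc) (hN Y hY hc)
  summand := fun M N i r h hN Y hY hc => hc.summand M N i r h (hN Y hY hc)
  extension := fun X Z W f g hf he hg hX hW Y hY hc =>
    hc.extension X Z W f g hf he hg (hX Y hY hc) (hW Y hY hc)

section step

variable {P : Type u} [AddCommGroup P] [Module R P] [Module.Finite R P] [Module.Projective R P]

theorem TS.proj (I : Ideal R) (S : Set R) : TS I S (ModuleCat.of R P) :=
  ⟨isC_projective (P := ModuleCat.of R P) inferInstance inferInstance,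
    LP.of_projective (M := P) inferInstance,
    fun a _ => ⟨ModuleCat.of R P, inferInstance, inferInstance, LinearMap.id,
      a • LinearMap.id, fun m => rfl⟩⟩

theorem TS.pull [IsNoetherianRing R] {I : Ideal R} {S : Set R} {M : ModuleCat.{u} R}
    (hM : TS I S M) (π : P →ₗ[R] M) (hπ : Function.Surjective π) (a : R) :
    TS I (insert a S) (ModuleCat.of R (pb a π)) := by
  obtain ⟨h1, h2, h3⟩ := hM
  have hP : IsC R (ModuleCat.of R P) := (TS.proj (P := P) I S).1
  have hP' : LP I P := (TS.proj (P := P) I S).2.1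
  have hex : Function.Exact (LinearMap.ker π).subtype π := LinearMap.exact_subtype_ker_map π
  have hK : IsC R (ModuleCat.of R (LinearMap.ker π)) :=
    IsC.ker (X := ModuleCat.of R (LinearMap.ker π)) (Z := ModuleCat.of R P) (W := M)
      (LinearMap.ker π).subtype π Subtype.val_injective hex hπ hP h1
  have hK' : LP I (LinearMap.ker π) :=
    LP.ker (LinearMap.ker π).subtype π Subtype.val_injective hex hπ hP' h2
  refine ⟨?_, ?_, ?_⟩
  · exact IsC.ext (X := ModuleCat.of R (LinearMap.ker π)) (Z := ModuleCat.of R (pb a π)) (W := M)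
      (pbI a π) (pbP a π) (pb_inj a π) (pb_exact a π) (pb_surj a π hπ) hK h1
  · exact LP.ext (pbI a π) (pbP a π) (pb_inj a π) (pb_exact a π) (pb_surj a π hπ) hK' h2
  · rintro b (rfl | hb)
    · exact self_mem_stableAnn b π
    · exact stableAnn_pb M b a π hπ (h3 hb)

/-- `E_{a ^ (n+1)}` is in the closure of `E_a` and `P`. -/
theorem pb_pow (X : ModuleCat.{u} R → Prop) {M : ModuleCat.{u} R} (π : P →ₗ[R] M)
    (hπ : Function.Surjective π) (a : R) (h1 : X (ModuleCat.of R (pb a π))) (n : ℕ) :
    ExtClosure R X (ModuleCat.of R (pb (a ^ (n + 1)) π)) := by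
  induction n with
  | zero =>
    rw [zero_add, pow_one]
    exact ExtClosure.of h1
  | succ n ih =>
    have h3 : ExtClosure R X (ModuleCat.of R (pb (a ^ (n + 1) * a) π × P)) :=
      (extClosure_closed X).extension (ModuleCat.of R (pb a π))
        (ModuleCat.of R (pb (a ^ (n + 1) * a) π × P)) (ModuleCat.of R (pb (a ^ (n + 1)) π))
        (sqI (a ^ (n + 1)) a π) (sqP (a ^ (n + 1)) a π) (sq_inj _ _ _) (sq_exact _ _ _)
        (sq_surj _ _ _ hπ) (ExtClosure.of h1) ih
    have h4 := (extClosure_closed X).summand (ModuleCat.of R (pb (a ^ (n + 1) * a) π))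
      (ModuleCat.of R (pb (a ^ (n + 1) * a) π × P)) (LinearMap.inl R _ _)
      (LinearMap.fst R _ _) (fun m => rfl) h3
    rw [pow_succ a (n + 1)]
    exact h4

end step

theorem step [IsNoetherianRing R] {I : Ideal R} {S : Set R} {M : ModuleCat.{u} R}
    (hM : TS I S M) (a : R) (ha : a ∈ I) : ExtClosure R (TS I (insert a S)) M := by
  have hfin := hM.1.1
  obtain ⟨k, π, hπ⟩ := Module.Finite.exists_fin' R M
  obtain ⟨n, hn⟩ := exists_pow_mem I M hM.2.1 (Fin k → R) π hπ a ha
  have hn' : a ^ (n + 1) ∈ stableAnn R M := by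
    rw [← mem_sIdeal π hπ, pow_succ']
    exact Ideal.mul_mem_left _ _ hn
  obtain ⟨i, hi⟩ := summand_pb M (a ^ (n + 1)) π hπ hn'
  have h1 := pb_pow (TS I (insert a S)) π hπ a (TS.pull hM π hπ a) n
  exact (extClosure_closed _).summand M (ModuleCat.of R (pb (a ^ (n + 1)) π)) i
    (pbP (a ^ (n + 1)) π) hi h1

theorem steps [IsNoetherianRing R] {I : Ideal R} (L : List R) :
    ∀ (S : Set R), (∀ a ∈ L, a ∈ I) → ∀ M : ModuleCat.{u} R, TS I S M →
      ExtClosure R (TS I ({a | a ∈ L} ∪ S)) M := by
  induction L with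
  | nil =>
    intro S _ M hM
    have : ({a | a ∈ ([] : List R)} ∪ S) = S := by simp
    rw [this]
    exact ExtClosure.of hM
  | cons a L ih =>
    intro S hL M hM
    have h1 := step hM a (hL a (by simp))
    refine ExtClosure.mono (fun N hN => ?_) h1
    have h2 := ih (insert a S) (fun b hb => hL b (by simp [hb])) N hN
    have : ({b | b ∈ L} ∪ insert a S) = ({b | b ∈ a :: L} ∪ S) := by
      ext b
      simp only [Set.mem_union, Set.mem_ofPred_eq, Set.mem_insert_iff, List.mem_cons]
      tauto
    rwa [this] at h2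

theorem isCVI_of_isCI {I : Ideal R} {M : ModuleCat.{u} R} (hM : IsCI R I M) :
    IsC R M ∧ LP I M := by
  refine ⟨hM.1, fun p hp hI => ?_⟩
  obtain ⟨a, ha, hap⟩ := Set.not_subset.1 hI
  obtain ⟨P, hP1, hP2, f, g, h⟩ := hM.2 ha
  have hPp := LP.of_projective (I := I) hP2 p hI
  have hu : IsUnit (algebraMap R (Localization.AtPrime p) a) :=
    IsLocalization.map_units (Localization.AtPrime p) (⟨a, hap⟩ : p.primeCompl)
  obtain ⟨v, hv⟩ := hu
  refine Module.Projective.of_split (LocalizedModule.map p.primeCompl f)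
    (((v⁻¹ : (Localization.AtPrime p)ˣ) : Localization.AtPrime p) •
      LocalizedModule.map p.primeCompl g) ?_
  refine LinearMap.ext fun m => ?_
  rw [LinearMap.comp_apply, LinearMap.smul_apply, loc_comp]
  have : g ∘ₗ f = a • LinearMap.id := LinearMap.ext h
  rw [this]
  have h5 : LocalizedModule.map p.primeCompl (a • (LinearMap.id : M →ₗ[R] M)) =
      a • LinearMap.id := by
    rw [map_smul, LocalizedModule.map_id]
  rw [h5, LinearMap.smul_apply, ← algebraMap_smul (Localization.AtPrime p) a, ← hv, smul_smul]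
  simp

theorem closed_CVI (I : Ideal R) : IsExtClosed R (fun M => IsC R M ∧ LP I M) where
  zero := fun M h => ⟨isC_subsingleton h, LP.of_projective (by
    have := h
    infer_instance)⟩
  sum := fun M N hM hN => ⟨hM.1.prod hN.1, LP.ext (LinearMap.inl R M N)
    (LinearMap.snd R M N) LinearMap.inl_injective Function.Exact.inl_snd
    LinearMap.snd_surjective hM.2 hN.2⟩
  summand := fun M N i r h hN => ⟨IsC.summand i r h hN.1, LP.summand i r h hN.2⟩
  extension := fun X Z W f g hf he hg hX hW => ⟨IsC.ext f g hf he hg hX.1 hW.1,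
    LP.ext f g hf he hg hX.2 hW.2⟩

theorem stableAnn_smul {M : ModuleCat.{u} R} [Module.Finite R M] {S : Set R}
    (h : S ⊆ stableAnn R M) : (Ideal.span S : Set R) ⊆ stableAnn R M := by
  obtain ⟨k, π, hπ⟩ := Module.Finite.exists_fin' R M
  intro a ha
  rw [← mem_sIdeal π hπ]
  have : Ideal.span S ≤ sIdeal π := Ideal.span_le.2 fun b hb => by
    rw [SetLike.mem_coe, mem_sIdeal π hπ]
    exact h hb
  exact this ha

theorem main [IsNoetherianRing R] (I : Ideal R) (M : ModuleCat.{u} R) :
    ExtClosure R (IsCI R I) M ↔ IsCVI R I M := by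
  rw [isCVI_iff]
  constructor
  · intro h
    exact h (fun M => IsC R M ∧ LP I M) (fun N hN => isCVI_of_isCI hN) (closed_CVI I)
  · rintro ⟨h1, h2⟩
    obtain ⟨T, hT⟩ := (inferInstance : IsNoetherian R R).noetherian I
    have h3 := steps (I := I) T.toList ∅ (fun a ha => by
      rw [← hT]
      exact Submodule.subset_span (by simpa using ha)) M ⟨h1, h2, by simp⟩
    refine ExtClosure.mono (fun N hN => ExtClosure.of ⟨hN.1, ?_⟩) h3
    have hfin := hN.1.1
    have h4 := stableAnn_smul hN.2.2
    intro a ha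
    refine h4 ?_
    have h5 : Ideal.span (T : Set R) ≤ Ideal.span ({a | a ∈ T.toList} ∪ ∅) :=
      Ideal.span_mono (fun b hb => by simpa using hb)
    exact h5 (by rw [Ideal.span]; rw [hT]; exact ha)

end Pool.Agent.V113.ExtC
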