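import Pool.Agent.V113.ExtC.Basic

/-!
# Extension closure of stably annihilated modules: localisation
-/

set_option autoImplicit false

namespace Pool.Agent.V113.ExtC

open CategoryTheory

universe u

variable {R : Type u} [CommRing R]

section maps

variable {X Z W : Type u} [AddCommGroup X] [AddCommGroup Z] [AddCommGroup W]
    [Module R X] [Module R Z] [Module R W] (S : Submonoid R)

theorem loc_exact (f : X →ₗ[R] Z) (g : Z →ₗ[R] W) (he : Function.Exact f g) :
    Function.Exact (LocalizedModule.map S f) (LocalizedModule.map S g) := by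
  intro y
  exact LocalizedModule.map_exact S f g he y

theorem loc_comp (f : X →ₗ[R] Z) (g : Z →ₗ[R] W) (x : LocalizedModule S X) :
    LocalizedModule.map S g (LocalizedModule.map S f x) = LocalizedModule.map S (g ∘ₗ f) x := by
  induction x using LocalizedModule.induction_on with
  | _ m s => simp

end maps

/-- `LocalizedModule S R` is `Localization S`. -/
noncomputable def locSelf (S : Submonoid R) :
    LocalizedModule S R ≃ₗ[Localization S] Localization S :=
  LocalizedModule.equivTensorProduct S R ≪≫ₗ TensorProduct.AlgebraTensorModule.rid R _ _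

theorem IsC.ext {X Z W : ModuleCat.{u} R} (f : X →ₗ[R] Z) (g : Z →ₗ[R] W)
    (hf : Function.Injective f) (he : Function.Exact f g) (hg : Function.Surjective g)
    (h1 : IsC R X) (h3 : IsC R W) : IsC R Z := by
  constructor
  · have := h1.1
    have := h3.1
    exact Module.Finite.of_exact he hg
  · intro p hp
    rw [depth_le_iff]
    intro n hn
    have a1 := (depth_le_iff _ _).1 (h1.2 p) n hn
    have a3 := (depth_le_iff _ _).1 (h3.2 p) n hn
    exact Dg.ext' (LocalizedModule.map p.primeCompl f) (LocalizedModule.map p.primeCompl g)
      (LocalizedModule.map_injective _ _ hf) (loc_exact _ _ _ he)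
      (LocalizedModule.map_surjective _ _ hg) a1 a3

theorem IsC.ker [IsNoetherianRing R] {X Z W : ModuleCat.{u} R} (f : X →ₗ[R] Z) (g : Z →ₗ[R] W)
    (hf : Function.Injective f) (he : Function.Exact f g) (hg : Function.Surjective g)
    (h2 : IsC R Z) (h3 : IsC R W) : IsC R X := by
  constructor
  · have := h2.1
    exact Module.Finite.of_injective f hf
  · intro p hp
    rw [depth_le_iff]
    intro n hn
    have a2 := (depth_le_iff _ _).1 (h2.2 p) n hn
    have a3 := (depth_le_iff _ _).1 (h3.2 p) n hn
    exact Dg.ker' (LocalizedModule.map p.primeCompl f) (LocalizedModule.map p.primeCompl g)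
      (LocalizedModule.map_injective _ _ hf) (loc_exact _ _ _ he)
      (LocalizedModule.map_surjective _ _ hg) a2 a3

theorem IsC.summand {M N : ModuleCat.{u} R} (i : M →ₗ[R] N) (r : N →ₗ[R] M)
    (h : ∀ m, r (i m) = m) (hN : IsC R N) : IsC R M := by
  constructor
  · have := hN.1
    exact Module.Finite.of_surjective r (fun m => ⟨i m, h m⟩)
  · intro p hp
    rw [depth_le_iff]
    intro n hn
    have a := (depth_le_iff _ _).1 (hN.2 p) n hn
    refine Dg.summand' (LocalizedModule.map p.primeCompl i) (LocalizedModule.map p.primeCompl r)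
      ?_ a
    intro m
    rw [loc_comp]
    have : r ∘ₗ i = LinearMap.id := LinearMap.ext h
    rw [this, LocalizedModule.map_id]
    rfl

theorem isC_self : IsC R (ModuleCat.of R R) := by
  constructor
  · infer_instance
  · intro p hp
    rw [depth_le_iff]
    intro n hn
    exact Dg.summand' (locSelf p.primeCompl).toLinearMap (locSelf p.primeCompl).symm.toLinearMap
      (fun m => by simp) hn

theorem IsC.prod {M N : ModuleCat.{u} R} (hM : IsC R M) (hN : IsC R N) :
    IsC R (ModuleCat.of R (M × N)) := by
  refine IsC.ext (X := M) (Z := ModuleCat.of R (M × N)) (W := N) (LinearMap.inl R M N)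
    (LinearMap.snd R M N) LinearMap.inl_injective ?_ LinearMap.snd_surjective hM hN
  exact Function.Exact.inl_snd

theorem isC_subsingleton {M : ModuleCat.{u} R} (h : Subsingleton M) : IsC R M :=
  IsC.summand (N := ModuleCat.of R R) 0 0 (fun m => Subsingleton.elim _ _) isC_self

theorem isC_fin (n : ℕ) : IsC R (ModuleCat.of R (Fin n → R)) := by
  induction n with
  | zero => exact isC_subsingleton (by
      change Subsingleton (Fin 0 → R)
      infer_instance)
  | succ n ih =>
    have e : (Fin (n + 1) → R) ≃ₗ[R] R × (Fin n → R) := Fin.consLinearEquiv R (fun _ => R) |>.symm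
    exact IsC.summand (M := ModuleCat.of R (Fin (n + 1) → R))
      (N := ModuleCat.of R (R × (Fin n → R))) e.toLinearMap e.symm.toLinearMap (fun m => by simp)
      (IsC.prod (M := ModuleCat.of R R) (N := ModuleCat.of R (Fin n → R)) isC_self ih)

theorem isC_projective {P : ModuleCat.{u} R} (h1 : Module.Finite R P)
    (h2 : Module.Projective R P) : IsC R P := by
  obtain ⟨n, f, hf⟩ := Module.Finite.exists_fin' R P
  obtain ⟨s, hs⟩ := Module.projective_lifting_property f LinearMap.id hf
  exact IsC.summand (N := ModuleCat.of R (Fin n → R)) s f (fun m => LinearMap.congr_fun hs m)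
    (isC_fin n)

/-- Local projectivity off `V(I)`. -/
def LP (I : Ideal R) (M : Type u) [AddCommGroup M] [Module R M] : Prop :=
  ∀ (p : Ideal R) [p.IsPrime], ¬ I ≤ p →
    Module.Projective (Localization.AtPrime p) (LocalizedModule p.primeCompl M)

theorem isCVI_iff (I : Ideal R) (M : ModuleCat.{u} R) : IsCVI R I M ↔ IsC R M ∧ LP I M := by
  constructor
  · rintro ⟨h1, h2⟩
    refine ⟨h1, fun p hp hI => ?_⟩
    have := h2 p hI
    exact Module.Projective.of_free
  · rintro ⟨h1, h2⟩
    refine ⟨h1, fun p hp hI => ?_⟩
    have := h2 p hI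
    have := h1.1
    have h3 : Module.Flat (Localization.AtPrime p) (LocalizedModule p.primeCompl M) :=
      Module.Flat.of_projective
    exact Module.free_of_flat_of_isLocalRing

theorem LP.ext {I : Ideal R} {X Z W : Type u} [AddCommGroup X] [AddCommGroup Z] [AddCommGroup W]
    [Module R X] [Module R Z] [Module R W] (f : X →ₗ[R] Z) (g : Z →ₗ[R] W)
    (hf : Function.Injective f) (he : Function.Exact f g) (hg : Function.Surjective g)
    (h1 : LP I X) (h3 : LP I W) : LP I Z := by
  intro p hp hI
  have a1 := h1 p hI
  have a3 := h3 p hI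
  have b1 := LocalizedModule.map_injective p.primeCompl _ hf
  have b2 := loc_exact p.primeCompl _ _ he
  have b3 := LocalizedModule.map_surjective p.primeCompl _ hg
  obtain ⟨s, hs⟩ := Module.projective_lifting_property
    (LocalizedModule.map p.primeCompl g) LinearMap.id b3
  refine Module.Projective.of_equiv' (LinearEquiv.ofBijective
    ((LocalizedModule.map p.primeCompl f).coprod s) ⟨?_, ?_⟩)
  · rw [injective_iff_map_eq_zero]
    rintro ⟨x, w⟩ h
    rw [LinearMap.coprod_apply] at h
    have h2 : w = 0 := by
      have := congrArg (LocalizedModule.map p.primeCompl g) h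
      rw [map_add, map_zero, (b2 _).2 ⟨x, rfl⟩, zero_add] at this
      rw [← this]
      exact (LinearMap.congr_fun hs w).symm
    subst h2
    rw [map_zero, add_zero] at h
    have := b1 (h.trans (map_zero _).symm)
    exact Prod.ext this rfl
  · intro z
    have h4 : LocalizedModule.map p.primeCompl g (z - s (LocalizedModule.map p.primeCompl g z))
        = 0 := by
      rw [map_sub, sub_eq_zero]
      exact (LinearMap.congr_fun hs _).symm
    obtain ⟨x, hx⟩ := (b2 _).1 h4
    refine ⟨(x, LocalizedModule.map p.primeCompl g z), ?_⟩
    rw [LinearMap.coprod_apply, hx, sub_add_cancel]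

theorem LP.summand {I : Ideal R} {M N : Type u} [AddCommGroup M] [AddCommGroup N] [Module R M]
    [Module R N] (i : M →ₗ[R] N) (r : N →ₗ[R] M) (h : ∀ m, r (i m) = m) (hN : LP I N) :
    LP I M := by
  intro p hp hI
  have a1 := hN p hI
  refine Module.Projective.of_split (LocalizedModule.map p.primeCompl i)
    (LocalizedModule.map p.primeCompl r) ?_
  refine LinearMap.ext fun m => ?_
  rw [LinearMap.comp_apply, loc_comp]
  have : r ∘ₗ i = LinearMap.id := LinearMap.ext h
  rw [this, LocalizedModule.map_id]

theorem LP.of_projective {I : Ideal R} {M : Type u} [AddCommGroup M] [Module R M]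
    (h : Module.Projective R M) : LP I M := by
  intro p hp hI
  have e := LocalizedModule.equivTensorProduct p.primeCompl M
  exact Module.Projective.of_equiv e.symm

theorem LP.ker {I : Ideal R} {X Z W : Type u} [AddCommGroup X] [AddCommGroup Z] [AddCommGroup W]
    [Module R X] [Module R Z] [Module R W] (f : X →ₗ[R] Z) (g : Z →ₗ[R] W)
    (hf : Function.Injective f) (he : Function.Exact f g) (hg : Function.Surjective g)
    (h2 : LP I Z) (h3 : LP I W) : LP I X := by
  intro p hp hI
  have a2 := h2 p hI
  have a3 := h3 p hI
  have b1 := LocalizedModule.map_injective p.primeCompl _ hf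
  have b2 := loc_exact p.primeCompl _ _ he
  have b3 := LocalizedModule.map_surjective p.primeCompl _ hg
  obtain ⟨s, hs⟩ := Module.projective_lifting_property
    (LocalizedModule.map p.primeCompl g) LinearMap.id b3
  -- the retraction
  have key : ∀ z, ∃ x, LocalizedModule.map p.primeCompl f x =
      z - s (LocalizedModule.map p.primeCompl g z) := by
    intro z
    refine (b2 _).1 ?_
    rw [map_sub, sub_eq_zero]
    exact (LinearMap.congr_fun hs _).symm
  choose r hr using key
  let r' : LocalizedModule p.primeCompl Z →ₗ[Localization.AtPrime p]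
      LocalizedModule p.primeCompl X :=
    { toFun := r
      map_add' := fun a b => b1 (by
        rw [hr, map_add (LocalizedModule.map p.primeCompl f), hr, hr, map_add, map_add]; abel)
      map_smul' := fun c a => b1 (by
        rw [hr, RingHom.id_apply, map_smul (LocalizedModule.map p.primeCompl f), hr, map_smul,
          map_smul, smul_sub]) }
  refine Module.Projective.of_split (LocalizedModule.map p.primeCompl f) r' ?_
  refine LinearMap.ext fun x => b1 ?_
  change LocalizedModule.map p.primeCompl f (r (LocalizedModule.map p.primeCompl f x)) = _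
  rw [hr, (b2 _).2 ⟨x, rfl⟩, map_zero, sub_zero]
  rfl

end Pool.Agent.V113.ExtC
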