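import Pool.Agent.V113.ExtC.Loc

/-!
# Extension closure of stably annihilated modules: the pullback modules
-/

set_option autoImplicit false

namespace Pool.Agent.V113.ExtC

open CategoryTheory

universe u

variable {R : Type u} [CommRing R]

section pull

variable {P M : Type u} [AddCommGroup P] [AddCommGroup M] [Module R P] [Module R M]

/-- `E_a = {(p, m) : π p = a m}`. -/
def pb (a : R) (π : P →ₗ[R] M) : Submodule R (P × M) :=
  LinearMap.ker (π ∘ₗ LinearMap.fst R P M - a • LinearMap.snd R P M)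

theorem mem_pb {a : R} {π : P →ₗ[R] M} {x : P × M} : x ∈ pb a π ↔ π x.1 = a • x.2 := by
  simp [pb, sub_eq_zero]

/-- inclusion of the kernel. -/
def pbI (a : R) (π : P →ₗ[R] M) : LinearMap.ker π →ₗ[R] pb a π :=
  LinearMap.codRestrict _ (LinearMap.inl R P M ∘ₗ (LinearMap.ker π).subtype) (by
    rintro ⟨x, hx⟩
    rw [mem_pb]
    simpa using hx)

def pbP (a : R) (π : P →ₗ[R] M) : pb a π →ₗ[R] M := LinearMap.snd R P M ∘ₗ (pb a π).subtype

def pbQ (a : R) (π : P →ₗ[R] M) : pb a π →ₗ[R] P := LinearMap.fst R P M ∘ₗ (pb a π).subtype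

theorem pb_inj (a : R) (π : P →ₗ[R] M) : Function.Injective (pbI a π) := by
  rintro ⟨x, hx⟩ ⟨y, hy⟩ h
  have := congrArg (fun z : pb a π => (z : P × M).1) h
  exact Subtype.ext this

theorem pb_exact (a : R) (π : P →ₗ[R] M) : Function.Exact (pbI a π) (pbP a π) := by
  rintro ⟨⟨x, m⟩, hx⟩
  constructor
  · intro h
    change m = 0 at h
    subst h
    rw [mem_pb] at hx
    refine ⟨⟨x, by simpa using hx⟩, rfl⟩
  · rintro ⟨⟨y, hy⟩, h⟩
    have := congrArg (fun z : pb a π => (z : P × M).2) h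
    exact this.symm

theorem pb_surj (a : R) (π : P →ₗ[R] M) (hπ : Function.Surjective π) :
    Function.Surjective (pbP a π) := by
  intro m
  obtain ⟨x, hx⟩ := hπ (a • m)
  exact ⟨⟨(x, m), mem_pb.2 hx⟩, rfl⟩

/-- If `a` factors through a projective module then there is `s : M → P` with `π s = a`. -/
theorem exists_of_stableAnn {M : ModuleCat.{u} R} {a : R} (ha : a ∈ stableAnn R M)
    (π : P →ₗ[R] M) (hπ : Function.Surjective π) : ∃ s : M →ₗ[R] P, ∀ m, π (s m) = a • m := by
  obtain ⟨P', h1, h2, f, g, h⟩ := ha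
  obtain ⟨t, ht⟩ := Module.projective_lifting_property π g hπ
  exact ⟨t ∘ₗ f, fun m => (LinearMap.congr_fun ht (f m)).trans (h m)⟩

variable (P) in
theorem stableAnn_of [Module.Finite R P] [Module.Projective R P] {M : ModuleCat.{u} R} {a : R}
    (f : M →ₗ[R] P) (g : P →ₗ[R] M) (h : ∀ m, g (f m) = a • m) : a ∈ stableAnn R M :=
  ⟨ModuleCat.of R P, inferInstance, inferInstance, f, g, h⟩

/-- `a` is in the stable annihilator of `E_a`. -/
theorem self_mem_stableAnn [Module.Finite R P] [Module.Projective R P] (a : R)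
    (π : P →ₗ[R] M) : a ∈ stableAnn R (ModuleCat.of R (pb a π)) := by
  refine stableAnn_of P (M := ModuleCat.of R (pb a π)) (pbQ a π)
    (LinearMap.codRestrict _ ((a • LinearMap.id).prod π) ?_) ?_
  · intro x
    rw [mem_pb]
    simp
  · rintro ⟨⟨x, m⟩, hx⟩
    rw [mem_pb] at hx
    refine Subtype.ext (Prod.ext rfl ?_)
    exact hx

/-- the stable annihilator of `M` is contained in that of `E_b`. -/
theorem stableAnn_pb [Module.Finite R P] [Module.Projective R P] (M : ModuleCat.{u} R) (a b : R)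
    (π : P →ₗ[R] M) (hπ : Function.Surjective π) (ha : a ∈ stableAnn R M) :
    a ∈ stableAnn R (ModuleCat.of R (pb b π)) := by
  obtain ⟨s, hs⟩ := exists_of_stableAnn ha π hπ
  -- `q ↦ (b q, π q)` and `x ↦ (a x - s π x, 0)`
  refine stableAnn_of (P × P) (M := ModuleCat.of R (pb b π))
    ((s ∘ₗ pbP b π).prod (pbQ b π))
    (LinearMap.codRestrict _ (((b • LinearMap.fst R P P) + (a • LinearMap.snd R P P -
      s ∘ₗ π ∘ₗ LinearMap.snd R P P)).prod (π ∘ₗ LinearMap.fst R P P)) ?_) ?_
  · rintro ⟨q, x⟩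
    rw [mem_pb]
    simp [hs]
  · rintro ⟨⟨x, m⟩, hx⟩
    rw [mem_pb] at hx
    refine Subtype.ext (Prod.ext ?_ ?_)
    · change b • s m + (a • x - s (π x)) = a • x
      rw [show π x = b • m from hx, map_smul]
      abel
    · change π (s m) = a • m
      exact hs m

/-- If `a` is in the stable annihilator of `M` then `M` is a direct summand of `E_a`. -/
theorem summand_pb (M : ModuleCat.{u} R) (a : R) (π : P →ₗ[R] M) (hπ : Function.Surjective π)
    (ha : a ∈ stableAnn R M) : ∃ i : M →ₗ[R] pb a π, ∀ m, pbP a π (i m) = m := by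
  obtain ⟨s, hs⟩ := exists_of_stableAnn ha π hπ
  exact ⟨LinearMap.codRestrict _ (s.prod LinearMap.id) (fun m => mem_pb.2 (hs m)), fun m => rfl⟩

/-- `E_b → E_{ab} × P`. -/
def sqI (a b : R) (π : P →ₗ[R] M) : pb b π →ₗ[R] (pb (a * b) π × P) :=
  (LinearMap.codRestrict _ ((a • LinearMap.fst R P M).prod (LinearMap.snd R P M) ∘ₗ
    (pb b π).subtype) (by
      rintro ⟨⟨x, m⟩, hx⟩
      rw [mem_pb] at hx ⊢
      change π (a • x) = (a * b) • m
      rw [map_smul, show π x = b • m from hx, mul_smul])).prod (-pbQ b π)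

/-- `E_{ab} × P → E_a`. -/
def sqP (a b : R) (π : P →ₗ[R] M) : (pb (a * b) π × P) →ₗ[R] pb a π :=
  LinearMap.coprod (LinearMap.codRestrict _ ((LinearMap.fst R P M).prod
    (b • LinearMap.snd R P M) ∘ₗ (pb (a * b) π).subtype) (by
      rintro ⟨⟨x, m⟩, hx⟩
      rw [mem_pb] at hx ⊢
      change π x = a • b • m
      rw [show π x = (a * b) • m from hx, mul_smul]))
    (LinearMap.codRestrict _ ((a • LinearMap.id).prod π) (by
      intro x
      rw [mem_pb]
      simp))

theorem sq_inj (a b : R) (π : P →ₗ[R] M) : Function.Injective (sqI a b π) := by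
  rintro ⟨⟨x, m⟩, hx⟩ ⟨⟨y, n⟩, hy⟩ h
  have h1 : -x = -y := congrArg (fun z : pb (a * b) π × P => z.2) h
  have h2 : m = n := congrArg (fun z : pb (a * b) π × P => (z.1 : P × M).2) h
  rw [neg_inj] at h1
  subst h1
  subst h2
  rfl

theorem sq_surj (a b : R) (π : P →ₗ[R] M) (hπ : Function.Surjective π) :
    Function.Surjective (sqP a b π) := by
  rintro ⟨⟨x, m⟩, hx⟩
  rw [mem_pb] at hx
  obtain ⟨q, hq⟩ := hπ m
  refine ⟨(⟨(x - a • q, 0), ?_⟩, q), ?_⟩
  · rw [mem_pb]
    change π (x - a • q) = (a * b) • (0 : M)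
    rw [map_sub, map_smul, hq, smul_zero, show π x = a • m from hx, sub_self]
  · refine Subtype.ext (Prod.ext ?_ ?_)
    · change (x - a • q) + a • q = x
      abel
    · change b • (0 : M) + π q = m
      rw [smul_zero, zero_add, hq]

theorem sq_exact (a b : R) (π : P →ₗ[R] M) : Function.Exact (sqI a b π) (sqP a b π) := by
  rintro ⟨⟨⟨x, m⟩, hx⟩, q⟩
  constructor
  · intro h
    have h1 : x + a • q = 0 := congrArg (fun z : pb a π => (z : P × M).1) h
    have h2 : b • m + π q = 0 := congrArg (fun z : pb a π => (z : P × M).2) h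
    refine ⟨⟨(-q, m), ?_⟩, ?_⟩
    · rw [mem_pb]
      change π (-q) = b • m
      rw [map_neg]
      exact (eq_neg_of_add_eq_zero_left h2).symm
    · refine Prod.ext (Subtype.ext (Prod.ext ?_ rfl)) ?_
      · change a • (-q) = x
        rw [smul_neg]
        exact (eq_neg_of_add_eq_zero_left h1).symm
      · change -(-q) = q
        exact neg_neg q
  · rintro ⟨⟨⟨y, n⟩, hy⟩, h⟩
    rw [← h]
    rw [mem_pb] at hy
    refine Subtype.ext (Prod.ext ?_ ?_)
    · change a • y + a • (-y) = 0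
      rw [smul_neg, add_neg_cancel]
    · change b • n + π (-y) = 0
      rw [map_neg, show π y = b • n from hy, add_neg_cancel]

end pull

end Pool.Agent.V113.ExtC
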